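import Mathlib

/-! Zariski equisingularity of affine hypersurfaces and stratifications: definitions. -/

namespace Pool.Agent.Helper38.EQS

open MvPowerSeries IsLocalRing

/-- A class of admissible bases: for every germ `f` over every field, a set of `n`-tuples of power
series. -/
abbrev BasisClass : Type 1 :=
  ∀ (n : ℕ) (K : Type) [Field K], MvPowerSeries (Fin n) K →
    (Fin n → MvPowerSeries (Fin n) K) → Prop

/-- The ideal generated by `f` and its first derivatives: it defines the singular locus of the
(reduced) hypersurface germ `f = 0`. -/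
noncomputable def singIdeal {n : ℕ} {K : Type} [Field K] (f : MvPowerSeries (Fin n) K) :
    Ideal (MvPowerSeries (Fin n) K) :=
  Ideal.span ({f} ∪ Set.range fun i => pderiv K i f)

/-- The linear form `∑ u_j x_j` in the power series `x_j`. -/
noncomputable def linForm {n m : ℕ} {K L : Type} [Field K] [Field L] [Algebra K L] (u : Fin n → L)
    (x : Fin n → MvPowerSeries (Fin m) K) : MvPowerSeries (Fin m) L :=
  ∑ j, C (u j) * map (algebraMap K L) (x j)

/-- `φ` is a unit `U` times its Weierstrass polynomial `F`, and `g = 0` is the reduced discriminant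
locus of `F`. -/
def IsDiscriminant {n : ℕ} {L : Type} [Field L] (φ : PowerSeries (MvPowerSeries (Fin n) L))
    (g : MvPowerSeries (Fin n) L) : Prop :=
  ∃ (F : Polynomial (MvPowerSeries (Fin n) L)) (U : PowerSeries (MvPowerSeries (Fin n) L)),
    φ.IsWeierstrassFactorization F U ∧ Ideal.span {g} = (Ideal.span {F.discr}).radical

/-- `Δ : g = 0` is the critical variety of the projection of `V : f = 0` with the local parameters
`y_i = ∑ u_{ij} x_j`, and `I'` is the ideal of the image of the subvariety with ideal `I`: there are
coordinates `(y, z)`, that is, an isomorphism `σ` with the power series in `z` over the power series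
in `y`, such that `Δ` is the reduced discriminant locus of the Weierstrass polynomial of `f` in `z`,
and `a(y)` is in `I'` if and only if it vanishes on the subvariety. -/
def IsCritical {n : ℕ} {K L : Type} [Field K] [Field L] [Algebra K L] (u : Fin n → Fin (n + 1) → L)
    (x : Fin (n + 1) → MvPowerSeries (Fin (n + 1)) K)
    (f : MvPowerSeries (Fin (n + 1)) K) (I : Ideal (MvPowerSeries (Fin (n + 1)) K))
    (g : MvPowerSeries (Fin n) L) (I' : Ideal (MvPowerSeries (Fin n) L)) : Prop :=
  ∃ σ : MvPowerSeries (Fin (n + 1)) L ≃ₐ[L] PowerSeries (MvPowerSeries (Fin n) L),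
    (∀ i, σ (linForm (u i) x) = PowerSeries.C (X i)) ∧
    IsDiscriminant (σ (map (algebraMap K L) f)) g ∧
    ∀ a, a ∈ I' ↔ σ.symm (PowerSeries.C a) ∈ (I.map (map (algebraMap K L))).radical

/-- The field `K(u)`, where `u = (u_{ij})` is an `n × (n+1)` matrix of indeterminates. -/
def RatField (n : ℕ) (K : Type) [Field K] : Type :=
  FractionRing (MvPolynomial (Fin n × Fin (n + 1)) K)

noncomputable instance RatField.field (n : ℕ) (K : Type) [Field K] : Field (RatField n K) :=
  (inferInstance : Field (FractionRing (MvPolynomial (Fin n × Fin (n + 1)) K)))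

noncomputable instance RatField.algebra (n : ℕ) (K : Type) [Field K] : Algebra K (RatField n K) :=
  (inferInstance : Algebra K (FractionRing (MvPolynomial (Fin n × Fin (n + 1)) K)))

/-- The inclusion of the polynomials in the `u_{ij}` in `K(u)`. -/
noncomputable def toRat (n : ℕ) (K : Type) [Field K] :
    MvPolynomial (Fin n × Fin (n + 1)) K →+* RatField n K :=
  algebraMap (MvPolynomial (Fin n × Fin (n + 1)) K)
    (FractionRing (MvPolynomial (Fin n × Fin (n + 1)) K))

/-- The algebraic closure of `K(u)`. -/
def GF (n : ℕ) (K : Type) [Field K] : Type := AlgebraicClosure (RatField n K)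

noncomputable instance GF.field (n : ℕ) (K : Type) [Field K] : Field (GF n K) :=
  (inferInstance : Field (AlgebraicClosure (RatField n K)))

noncomputable instance GF.algebraRat (n : ℕ) (K : Type) [Field K] :
    Algebra (RatField n K) (GF n K) :=
  (inferInstance : Algebra (RatField n K) (AlgebraicClosure (RatField n K)))

noncomputable instance GF.algebra (n : ℕ) (K : Type) [Field K] : Algebra K (GF n K) :=
  (inferInstance : Algebra K (AlgebraicClosure (RatField n K)))

/-- The indeterminate `u_{ij}`, as an element of the algebraic closure of `K(u)`. -/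
noncomputable def genU (n : ℕ) (K : Type) [Field K] (i : Fin n) (j : Fin (n + 1)) : GF n K :=
  algebraMap (RatField n K) (GF n K) (toRat n K (MvPolynomial.X (i, j)))

/-- `V : f = 0` is simple at the origin, and `M`, with ideal `I`, is not in the singular locus. -/
def IsEnd {n : ℕ} {K : Type} [Field K] (f : MvPowerSeries (Fin n) K)
    (I : Ideal (MvPowerSeries (Fin n) K)) : Prop :=
  ¬ singIdeal f ≤ I ∧ f ∈ maximalIdeal (MvPowerSeries (Fin n) K) ∧
    f ∉ maximalIdeal (MvPowerSeries (Fin n) K) ^ 2

/-- `M`, with ideal `I`, is in the singular locus of `V : f = 0`, and `Δ : g = 0` is the critical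
variety of the generic projection with local parameters `x_i^u = ∑ u_{ij} x_j`, over the algebraic
closure of `K(u)`, for a basis `x` in the class `B`, that is, a set of generators of the maximal
ideal; `I'` is the ideal of the image of `M`. -/
def IsStep (B : BasisClass) {n : ℕ} {K : Type} [Field K] (f : MvPowerSeries (Fin (n + 1)) K)
    (I : Ideal (MvPowerSeries (Fin (n + 1)) K)) (g : MvPowerSeries (Fin n) (GF n K))
    (I' : Ideal (MvPowerSeries (Fin n) (GF n K))) : Prop :=
  singIdeal f ≤ I ∧ ∃ x : Fin (n + 1) → MvPowerSeries (Fin (n + 1)) K,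
    Ideal.span (Set.range x) = maximalIdeal (MvPowerSeries (Fin (n + 1)) K) ∧
    B (n + 1) K f x ∧ IsCritical (genU n K) x f I g I'

/-- Zariski equisingularity of the hypersurface germ `V : f = 0` at the origin `Q` along the
subvariety `M` with (radical) ideal `I`, by a recursion that runs through `k` critical varieties.

* `simple`: `M` is not contained in the singular locus of `V`, and `Q` is a simple point of `V`.
* `step`: `M` is contained in the singular locus, `Δ : g = 0` is the critical variety of the generic
  projection, and `Δ` is equisingular at the image of `Q` along the image of `M` (with ideal `I'`). -/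
inductive EqChain (B : BasisClass) :
    ℕ → ∀ (n : ℕ) (K : Type) [Field K], MvPowerSeries (Fin n) K →
      Ideal (MvPowerSeries (Fin n) K) → Prop
  | simple (n : ℕ) (K : Type) [Field K] (f : MvPowerSeries (Fin n) K)
      (I : Ideal (MvPowerSeries (Fin n) K)) (h : IsEnd f I) : EqChain B 0 n K f I
  | step (k n : ℕ) (K : Type) [Field K] (f : MvPowerSeries (Fin (n + 1)) K)
      (I : Ideal (MvPowerSeries (Fin (n + 1)) K)) (g : MvPowerSeries (Fin n) (GF n K))
      (I' : Ideal (MvPowerSeries (Fin n) (GF n K))) (hs : IsStep B f I g I')
      (h : EqChain B k n (GF n K) g I') : EqChain B (k + 1) (n + 1) K f I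

section

variable {n : ℕ} {K : Type} [Field K]

/-- Expansion of a polynomial at the point `Q`. -/
noncomputable def taylorAt (Q : Fin n → K) : MvPolynomial (Fin n) K →ₐ[K] MvPowerSeries (Fin n) K :=
  MvPolynomial.aeval fun i => X i + C (Q i)

/-- `V : f = 0` is equisingular at `Q` along `M = V(P)`, with a recursion that runs through `k`
critical varieties. -/
def EqAlong (B : BasisClass) (k : ℕ) (f : MvPolynomial (Fin n) K)
    (Q : Fin n → K) (P : Ideal (MvPolynomial (Fin n) K)) : Prop :=
  EqChain B k n K (taylorAt Q f) (P.map (taylorAt Q)).radical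

/-- The ideal of the Zariski closure of a set of points. -/
noncomputable def idealOf (E : Set (Fin n → K)) : Ideal (MvPolynomial (Fin n) K) :=
  MvPolynomial.vanishingIdeal K E

/-- The maximal ideal of the point `Q`. -/
noncomputable def pointIdeal (Q : Fin n → K) : Ideal (MvPolynomial (Fin n) K) :=
  RingHom.ker (MvPolynomial.eval Q)

instance pointIdeal_isMaximal (Q : Fin n → K) : (pointIdeal Q).IsMaximal :=
  RingHom.ker_isMaximal_of_surjective _ fun a => ⟨MvPolynomial.C a, by simp⟩

/-- The local ring of affine space at the point `Q`. -/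
def LocalRingAt (Q : Fin n → K) : Type := Localization.AtPrime (pointIdeal Q)

noncomputable instance LocalRingAt.commRing (Q : Fin n → K) : CommRing (LocalRingAt Q) :=
  (inferInstance : CommRing (Localization.AtPrime (pointIdeal Q)))

/-- The canonical homomorphism to the local ring. -/
noncomputable def toLocal (Q : Fin n → K) : MvPolynomial (Fin n) K →+* LocalRingAt Q :=
  algebraMap (MvPolynomial (Fin n) K) (Localization.AtPrime (pointIdeal Q))

/-- `Q` is a simple point of `M = V(P)`: the local ring of `M` at `Q` is regular. -/
def IsSimple (P : Ideal (MvPolynomial (Fin n) K)) (Q : Fin n → K) : Prop :=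
  IsRegularLocalRing (LocalRingAt Q ⧸ P.map (toLocal Q))

/-- The Zariski closure of a set of points. -/
noncomputable def closureOf (E : Set (Fin n → K)) : Set (Fin n → K) :=
  MvPolynomial.zeroLocus K (idealOf E)

/-- The multiplicity of `V : f = 0` at `Q` is at least `m`. -/
def MultGe (f : MvPolynomial (Fin n) K) (m : ℕ) (Q : Fin n → K) : Prop :=
  f ∈ pointIdeal Q ^ m

/-- `V(P)` is an irreducible component of the Zariski closed set `E`. -/
def IsComponent (P : Ideal (MvPolynomial (Fin n) K)) (E : Set (Fin n → K)) : Prop :=
  P ∈ (idealOf E).minimalPrimes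

/-- A Zariski stratification of the affine hypersurface `V : f = 0`. -/
structure Stratification (B : BasisClass) (f : MvPolynomial (Fin n) K) where
  /-- the last index -/
  N : ℕ
  /-- the strata -/
  E : Fin (N + 1) → Set (Fin n → K)
  /-- `E 0` is the set of simple points of `V` -/
  E_zero : E 0 = {Q | MvPolynomial.eval Q f = 0 ∧ ∃ j, MvPolynomial.eval Q (MvPolynomial.pderiv j f) ≠ 0}
  /-- the strata cover `V` ... -/
  cover : ⋃ i, E i = {Q | MvPolynomial.eval Q f = 0}
  /-- ... and are disjoint -/
  disj : ∀ i j, i ≠ j → Disjoint (E i) (E j)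
  /-- (1) the closure of `E i` is irreducible -/
  prime : ∀ i, i ≠ 0 → (idealOf (E i)).IsPrime
  /-- (1) `E i` is the set of the points of its closure at which `V` is equisingular along it -/
  eqs : ∀ i, i ≠ 0 → E i = {Q | Q ∈ closureOf (E i) ∧ ∃ k, EqAlong B k f Q (idealOf (E i))}
  /-- (2) the frontier of a stratum is a union of strata -/
  frontier : ∀ i j, (E j ∩ (closureOf (E i) \ E i)).Nonempty → E j ⊆ closureOf (E i) \ E i
  /-- (2) the closure of `E j` is an irreducible component of the frontier of some stratum -/
  component : ∀ j, j ≠ 0 → ∃ i, IsComponent (idealOf (E j)) (closureOf (E i) \ E i)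

end

end Pool.Agent.Helper38.EQS
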