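import Pool.Agent.Helper38.EQS.Defs
import Pool.Agent.Helper38.EQ.StmtEquiv

/-! The statement of `Defs.lean` follows from the theorems in `Helper38.EQ`. -/

namespace Pool.Agent.Helper38.EQS

open MvPowerSeries

theorem map_iff {L S T : Type} [CommRing L] [CommRing S] [CommRing T] [Algebra L S] [Algebra L T]
    (σ : S ≃ₐ[L] T) (J : Ideal S) (c : T) : c ∈ Ideal.map σ J ↔ σ.symm c ∈ J := by
  constructor
  · intro h
    have h1 : Ideal.map σ J ≤ Ideal.comap σ.symm J := by
      rw [Ideal.map_le_iff_le_comap]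
      intro x hx
      rw [Ideal.mem_comap, Ideal.mem_comap, σ.symm_apply_apply]
      exact hx
    exact h1 h
  · intro h
    have := Ideal.mem_map_of_mem σ h
    rwa [σ.apply_symm_apply] at this

theorem image_iff {n : ℕ} {L : Type} [Field L]
    (σ : MvPowerSeries (Fin (n + 1)) L ≃ₐ[L] PowerSeries (MvPowerSeries (Fin n) L))
    (J : Ideal (MvPowerSeries (Fin (n + 1)) L)) (a : MvPowerSeries (Fin n) L) :
    a ∈ Ideal.comap (PowerSeries.C (R := MvPowerSeries (Fin n) L)) (Ideal.map σ J) ↔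
      σ.symm (PowerSeries.C a) ∈ J :=
  map_iff σ J (PowerSeries.C a)

theorem EqChain.toEqLen {B : BasisClass} {k n : ℕ} {K : Type} [Field K]
    {f : MvPowerSeries (Fin n) K} {I : Ideal (MvPowerSeries (Fin n) K)}
    (h : EqChain B k n K f I) : EQ.EqLen B k n K f I := by
  induction h with
  | simple n K f I h => exact EQ.EqLen.simple n K f I h.1 h.2.1 h.2.2
  | step k n K f I g I' hs h ih =>
    obtain ⟨hI, x, hx, hB, hc⟩ := hs
    obtain ⟨σ, hσ, ⟨F, U, hF, hg⟩, hI'⟩ := hc
    have hI'' : I' = Ideal.comap (PowerSeries.C (R := MvPowerSeries (Fin n) (EQ.GenField n K)))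
          (Ideal.map σ (Ideal.map (EQ.ext K (EQ.GenField n K)) I).radical) := by
      ext a
      rw [hI' a]
      exact (image_iff σ _ a).symm
    subst hI''
    exact EQ.EqLen.step k n K f I hI x hx hB σ hσ F U hF g hg ih

theorem _root_.Pool.Agent.Helper38.EQ.EqLen.toEqsChain {B : BasisClass} {k n : ℕ} {K : Type} [Field K]
    {f : MvPowerSeries (Fin n) K} {I : Ideal (MvPowerSeries (Fin n) K)}
    (h : EQ.EqLen B k n K f I) : EqChain B k n K f I := by
  induction h with
  | simple n K f I hI h1 h2 => exact EqChain.simple n K f I ⟨hI, h1, h2⟩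
  | step k n K f I hI x hx hB σ hσ F U hF g hg h ih =>
    exact EqChain.step k n K f I g _
      ⟨hI, x, hx, hB, σ, hσ, ⟨F, U, hF, hg⟩, image_iff σ _⟩ ih

section

variable {n : ℕ} {K : Type} [Field K]

theorem isSimple_iff (P : Ideal (MvPolynomial (Fin n) K)) (Q : Fin n → K) :
    IsSimple P Q ↔ EQ.IsSimplePoint P Q := Iff.rfl

theorem eqAlong_iff {B : BasisClass} {k : ℕ} {f : MvPolynomial (Fin n) K} {Q : Fin n → K}
    {P : Ideal (MvPolynomial (Fin n) K)} :
    EqAlong B k f Q P ↔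
      EQ.EqLen B k n K (EQ.taylorAt Q f) ((P.map (EQ.taylorAt Q)).radical) :=
  ⟨fun h => EqChain.toEqLen h, fun h => EQ.EqLen.toEqsChain h⟩

theorem exists_eqAlong_iff {B : BasisClass} {f : MvPolynomial (Fin n) K} {Q : Fin n → K}
    {P : Ideal (MvPolynomial (Fin n) K)} :
    (∃ k, EqAlong B k f Q P) ↔ EQ.EquisingularAt B f Q P :=
  exists_congr fun _ => eqAlong_iff

theorem multGe_iff (f : MvPolynomial (Fin n) K) (μ : ℕ) (Q : Fin n → K) :
    MultGe f μ Q ↔ EQ.MultGe f μ Q := Iff.rfl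

/-- The stratification in the form of `Strata.lean`. -/
noncomputable def Stratification.toZ {B : BasisClass} {f : MvPolynomial (Fin n) K}
    (S : Stratification B f) : EQ.ZariskiStratification B f where
  N := S.N
  E := S.E
  P := fun i => idealOf (S.E i)
  P_eq := fun _ => rfl
  E_zero := S.E_zero
  cover := S.cover
  disj := S.disj
  prime := S.prime
  eqs := by
    intro i hi
    refine (S.eqs i hi).trans ?_
    ext Q
    exact and_congr Iff.rfl (exists_eqAlong_iff (B := B) (f := f) (Q := Q))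
  frontier := S.frontier
  component := S.component

end

theorem main {K : Type} [Field K] [IsAlgClosed K] [CharZero K] {n : ℕ} (B : BasisClass)
    (f : MvPolynomial (Fin n) K) :
    (∀ (Q : Fin n → K) (P : Ideal (MvPolynomial (Fin n) K)), P.IsPrime → f ∈ P →
      Q ∈ MvPolynomial.zeroLocus K P → (∃ k, EqAlong B k f Q P) →
      (∀ m, MultGe f m Q → ∀ R ∈ MvPolynomial.zeroLocus K P, MultGe f m R) ∧
      (∀ μ, IsComponent P {R | MultGe f μ R} → IsSimple P Q) ∧
      (∀ k, EqAlong B k f Q P → P.height ≤ k + 1 → IsSimple P Q)) ∧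
    (∀ (S : Stratification B f) (i : Fin (S.N + 1)), i ≠ 0 → ∀ Q ∈ S.E i,
      ((idealOf (S.E i)).height ≤ 4 → IsSimple (idealOf (S.E i)) Q) ∧
      (n ≤ 5 → IsSimple (idealOf (S.E i)) Q) ∧
      (∀ k ≤ 2, EqAlong B k f Q (idealOf (S.E i)) → IsSimple (idealOf (S.E i)) Q)) := by
  refine ⟨?_, ?_⟩
  · intro Q P hPp hf hQ h
    have hP : P ≤ EQ.pointIdeal Q := (EQ.le_pointIdeal_iff _ _).mpr hQ
    obtain ⟨h1, h2⟩ := EQ.alg_main hP hf (exists_eqAlong_iff.mp h)
    refine ⟨?_, ?_, ?_⟩
    · intro m hm R hR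
      rw [multGe_iff] at hm ⊢
      rw [EQ.multGe_iff]
      exact (h1 m hm).trans ((EQ.le_pointIdeal_iff _ _).mpr hR)
    · intro μ hμ
      rw [isSimple_iff]
      refine h2 μ ((EQ.isComponent_iff f μ P).mp ?_)
      have : {R | MultGe f μ R} = {R | EQ.MultGe f μ R} := by
        ext R; exact multGe_iff f μ R
      rw [this] at hμ
      exact hμ
    · intro k hk hh
      rw [isSimple_iff]
      exact EQ.full_chain hP hf (eqAlong_iff.mp hk) hh
  · intro S i hi Q hQ
    obtain ⟨-, h2, h3, -, h5⟩ := EQ.strata_final S.toZ i hi Q hQ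
    refine ⟨fun h => (isSimple_iff _ _).mpr (h2 h), fun h => (isSimple_iff _ _).mpr (h3 h),
      fun k hk hk' => (isSimple_iff _ _).mpr (h5 k (eqAlong_iff.mp hk') (Or.inl hk))⟩

end Pool.Agent.Helper38.EQS
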